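import Pool.Agent.H317.GR.StmA

set_option autoImplicit false

/-! PAD of project GR (helper274 for helper317) -/

namespace Pool.Agent.H274.GR

open Matrix Module
open Pool.Agent.H317.GR

namespace PADN

/-- the ring of the compatible sequences -/
def R (p : ℕ) : Subring (∀ k : ℕ, ZMod (p ^ k)) where
  carrier := {x | ∀ (k1 k2 : ℕ) (h : k1 ≤ k2), ZMod.castHom (pow_dvd_pow p h) (ZMod (p ^ k1)) (x k2) = x k1}
  mul_mem' := by
    intro a b ha hb k1 k2 h
    rw [Pi.mul_apply, map_mul, ha k1 k2 h, hb k1 k2 h, Pi.mul_apply]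
  one_mem' := by
    intro k1 k2 h
    rw [Pi.one_apply, map_one, Pi.one_apply]
  add_mem' := by
    intro a b ha hb k1 k2 h
    rw [Pi.add_apply, map_add, ha k1 k2 h, hb k1 k2 h, Pi.add_apply]
  zero_mem' := by
    intro k1 k2 h
    rw [Pi.zero_apply, map_zero, Pi.zero_apply]
  neg_mem' := by
    intro a ha k1 k2 h
    rw [Pi.neg_apply, map_neg, ha k1 k2 h, Pi.neg_apply]

/-- the projections -/
def pr (p k : ℕ) : R p →+* ZMod (p ^ k) := (Pi.evalRingHom (fun k => ZMod (p ^ k)) k).comp (R p).subtype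

theorem ex (p : ℕ) [Fact p.Prime] (x : ∀ k : ℕ, ZMod (p ^ k)) (hx : x ∈ R p) :
    ∃ y : ℤ_[p], ∀ k, PadicInt.toZModPow k y = x k := by
  have hc : ∀ (k1 k2 : ℕ) (hk : k1 ≤ k2),
      (ZMod.castHom (pow_dvd_pow p hk) (ZMod (p ^ k1))).comp (pr p k2) = pr p k1 := by
    intro k1 k2 hk
    ext a
    exact a.2 k1 k2 hk
  refine ⟨PadicInt.lift hc ⟨x, hx⟩, fun k => ?_⟩
  exact RingHom.congr_fun (PadicInt.lift_spec hc k) ⟨x, hx⟩

end PADN

open PADN in
/-- **PAD** -/
theorem pad : S_PAD := by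
  intro n Λ _ f hf hs p _
  have h1 : ∀ (g : Λ) (i j : Fin n), ∃ y : ℤ_[p], ∀ k, PadicInt.toZModPow k y = (f (p ^ k) g).val i j := by
    intro g i j
    refine ex p (fun k => (f (p ^ k) g).val i j) fun k1 k2 h => ?_
    have h2 := hf (p ^ k1) (p ^ k2) (pow_dvd_pow p h) (pow_pos (Fact.out : p.Prime).pos k2) g
    exact congrArg (fun B : SpecialLinearGroup (Fin n) (ZMod (p ^ k1)) => B.val i j) h2
  choose A hA using h1
  have key : ∀ (g : Λ) (k : ℕ), (PadicInt.toZModPow k).mapMatrix (Matrix.of fun i j => A g i j) =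
      (f (p ^ k) g).val := by
    intro g k
    ext i j
    exact hA g i j k
  have hdet : ∀ g : Λ, (Matrix.of fun i j => A g i j).det = 1 := by
    intro g
    refine PadicInt.ext_of_toZModPow.mp fun k => ?_
    rw [RingHom.map_det, key, map_one]
    exact (f (p ^ k) g).2
  have hmul : ∀ g h : Λ, (Matrix.of fun i j => A (g * h) i j) =
      (Matrix.of fun i j => A g i j) * (Matrix.of fun i j => A h i j) := by
    intro g h
    ext i j
    have h2 : A (g * h) i j = ((Matrix.of fun i j => A g i j) * (Matrix.of fun i j => A h i j)) i j := by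
      refine PadicInt.ext_of_toZModPow.mp fun k => ?_
      have h3 : PadicInt.toZModPow k (((Matrix.of fun i j => A g i j) * (Matrix.of fun i j => A h i j)) i j) =
          ((PadicInt.toZModPow k).mapMatrix ((Matrix.of fun i j => A g i j) *
            (Matrix.of fun i j => A h i j))) i j := rfl
      rw [h3, map_mul, key, key, hA, map_mul]
      rfl
    exact h2
  have hone : (Matrix.of fun i j => A 1 i j) = (1 : Matrix (Fin n) (Fin n) ℤ_[p]) := by
    ext i j
    have h2 : A 1 i j = (1 : Matrix (Fin n) (Fin n) ℤ_[p]) i j := by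
      refine PadicInt.ext_of_toZModPow.mp fun k => ?_
      have h3 : PadicInt.toZModPow k ((1 : Matrix (Fin n) (Fin n) ℤ_[p]) i j) =
          ((PadicInt.toZModPow k).mapMatrix (1 : Matrix (Fin n) (Fin n) ℤ_[p])) i j := rfl
      rw [h3, map_one, hA, map_one]
      rfl
    exact h2
  obtain ⟨ρ, hρ⟩ : ∃ ρ : Λ →* SpecialLinearGroup (Fin n) ℤ_[p], ∀ g i j, (ρ g).val i j = A g i j :=
    ⟨{ toFun := fun g => ⟨Matrix.of fun i j => A g i j, hdet g⟩
       map_one' := Subtype.ext hone
       map_mul' := fun g h => Subtype.ext (hmul g h) }, fun g i j => rfl⟩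
  refine ⟨ρ, fun B k => ?_, fun k g => ?_⟩
  · obtain ⟨g, hg⟩ := hs (p ^ k) (pow_pos (Fact.out : p.Prime).pos k)
      (SpecialLinearGroup.map (Int.castRingHom (ZMod (p ^ k))) B)
    refine ⟨g, fun i j => ?_⟩
    rw [← Ideal.mem_span_singleton, ← PadicInt.ker_toZModPow, RingHom.mem_ker, map_sub, hρ, hA, hg,
      map_intCast, sub_eq_zero]
    rfl
  · apply Subtype.ext
    ext i j
    have h2 : (SpecialLinearGroup.map (PadicInt.toZModPow k) (ρ g)).val i j =
        PadicInt.toZModPow k ((ρ g).val i j) := rfl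
    rw [h2, hρ, hA]

end Pool.Agent.H274.GR
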